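import Pool.Agent.Q161.ESB.Stm1
import Pool.Agent.Q121.ESN.RB

/-! # Project ESB of helper161: job RB, the product of the densities over a range of primes
(adapted from `Pool/Agent/Q121/ESN/RB.lean` of helper121) -/

set_option autoImplicit false

namespace Pool.Agent.Q79.ESB

open Finset
open Pool.Agent.Q51.EL (pr)
open Pool.Agent.Q161.ESB
open Pool.Agent.Q121.ESN (mem_pr mem_pr4 mem_PP vv_pos PP_mono grow grow2 frac_nonneg frac_le_one ex)

section

variable {ι : Type} [Fintype ι] [DecidableEq ι] {n : ι → ℕ}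

/-- the number of the primes of the range which divide the norms -/
theorem few_bad {s : Sy n} {M : ℕ} {A c κ : ℝ} (hs : Ok M s A c κ) (S : Finset ι) (z : Vc n) {Y1 : ℝ} (hY : 1 ≤ Y1)
    (hz : ∀ i, i ∉ S → (∀ j, |(z i j : ℝ)| ≤ Y1) ∧ s.Nm i (z i) ≠ 0) (D : Finset ℕ)
    (hD : ∀ l ∈ D, l.Prime ∧ Y1 < (l : ℝ) ^ 4 ∧ l ∣ ∏ i ∈ univ \ S, s.Nm i (z i)) :
    (D.card : ℝ) ≤ 4 * (Fintype.card ι * Real.log A + ∑ i, (n i : ℝ)) := by
  have hA1 := hs.A1
  set Q := ∏ i ∈ univ \ S, s.Nm i (z i) with hQ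
  have hQ0 : Q ≠ 0 := by
    rw [hQ, prod_ne_zero_iff]
    intro i hi
    rw [mem_sdiff] at hi
    exact (hz i hi.2).2
  have hlogQ : Real.log Q ≤ Fintype.card ι * Real.log A + (∑ i, (n i : ℝ)) * Real.log Y1 := by
    rw [hQ]
    push_cast
    rw [Real.log_prod (fun i hi => by
      rw [mem_sdiff] at hi
      exact_mod_cast (hz i hi.2).2)]
    have h1 : ∀ i ∈ univ \ S, Real.log (s.Nm i (z i) : ℝ) ≤ Real.log A + n i * Real.log Y1 := by
      intro i hi
      rw [mem_sdiff] at hi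
      have h2 := hs.nb i (z i) Y1 hY (hz i hi.2).1
      have h3 : (0 : ℝ) < s.Nm i (z i) := by exact_mod_cast Nat.pos_of_ne_zero (hz i hi.2).2
      have h4 := Real.log_le_log h3 h2
      rw [Real.log_mul (by linarith) (by positivity), Real.log_pow] at h4
      exact h4
    refine (sum_le_sum h1).trans ?_
    have h5 : ∑ i ∈ univ \ S, (Real.log A + n i * Real.log Y1) ≤ ∑ i, (Real.log A + n i * Real.log Y1) := by
      apply sum_le_sum_of_subset_of_nonneg sdiff_subset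
      intro i _ _
      have := Real.log_nonneg hA1
      have := Real.log_nonneg hY
      positivity
    refine h5.trans (le_of_eq ?_)
    rw [sum_add_distrib, sum_const, card_univ, nsmul_eq_mul, sum_mul]
  have hprod : ∏ l ∈ D, l ∣ Q := by
    apply Finset.prod_primes_dvd
    · intro l hl
      exact (hD l hl).1.prime
    · intro l hl
      exact (hD l hl).2.2
  have hsum : ∑ l ∈ D, Real.log (l : ℝ) ≤ Real.log Q := by
    rw [← Real.log_prod (fun l hl => by exact_mod_cast (hD l hl).1.ne_zero)]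
    apply Real.log_le_log
    · apply prod_pos
      intro l hl
      exact_mod_cast (hD l hl).1.pos
    · have h9 : ((∏ l ∈ D, l : ℕ) : ℝ) ≤ (Q : ℝ) := by
        exact_mod_cast Nat.le_of_dvd (Nat.pos_of_ne_zero hQ0) hprod
      push_cast at h9
      exact h9
  have h1 : (D.card : ℝ) * (Real.log Y1 / 4) ≤ ∑ l ∈ D, Real.log (l : ℝ) := by
    rw [← nsmul_eq_mul]
    apply card_nsmul_le_sum
    intro l hl
    have h2 := Real.log_le_log (by linarith) (hD l hl).2.1.le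
    rw [Real.log_pow] at h2
    push_cast at h2
    linarith
  have h2 : (D.card : ℝ) * (1 / 2) ≤ ∑ l ∈ D, Real.log (l : ℝ) := by
    rw [← nsmul_eq_mul]
    apply card_nsmul_le_sum
    intro l hl
    have h3 : (2 : ℝ) ≤ l := by exact_mod_cast (hD l hl).1.two_le
    have h4 := Real.log_le_log (by norm_num) h3
    have := Real.log_two_gt_d9
    linarith
  have hL0 := Real.log_nonneg hY
  have hA0 : 0 ≤ Fintype.card ι * Real.log A := by
    have := Real.log_nonneg hA1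
    positivity
  have hn0 : 0 ≤ ∑ i, (n i : ℝ) := sum_nonneg fun i _ => Nat.cast_nonneg _
  rcases le_or_gt 1 (Real.log Y1) with hc | hc
  · have h3 : (D.card : ℝ) * (Real.log Y1 / 4) ≤
        (Fintype.card ι * Real.log A + ∑ i, (n i : ℝ)) * Real.log Y1 := by
      refine h1.trans (hsum.trans (hlogQ.trans ?_))
      rw [add_mul]
      have : (Fintype.card ι * Real.log A) * 1 ≤ (Fintype.card ι * Real.log A) * Real.log Y1 :=
        mul_le_mul_of_nonneg_left hc hA0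
      linarith
    have h4 : (D.card : ℝ) * Real.log Y1 ≤ 4 * (Fintype.card ι * Real.log A + ∑ i, (n i : ℝ)) * Real.log Y1 := by
      linarith
    exact le_of_mul_le_mul_right h4 (by linarith)
  · have h3 : (∑ i, (n i : ℝ)) * Real.log Y1 ≤ (∑ i, (n i : ℝ)) * 1 := mul_le_mul_of_nonneg_left hc.le hn0
    linarith

open Classical in
theorem rb_aux (M : ℕ) (s : Sy n) (A c κ : ℝ) (hs : Ok M s A c κ) : ∃ C : ℝ, 0 < C ∧ ∀ θ : ℝ, 0 ≤ θ → θ ≤ κ →
    ∀ (S : Finset ι) (z : Vc n) (Y1 Y2 : ℝ), M ≤ S.card → 1 ≤ Y1 → Y1 ≤ Y2 →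
    (∀ i, i ∉ S → (∀ j, |(z i j : ℝ)| ≤ Y1) ∧ s.Nm i (z i) ≠ 0) →
    (∀ l : ℕ, l.Prime → ¬ l ∣ s.B → (∀ i, i ∉ S → rd n l z i ∈ s.U l i) →
      frac n s.Om S l z ≤ 1 - ex s S θ l / l + A / (l : ℝ) ^ 2) →
    ∏ l ∈ PP s.B Y2 \ PP s.B Y1, frac n s.Om S l z ≤
      C * (vv Y1 / vv Y2) ^ (S.card - M) * (vv Y1 / vv Y2) ^ (c * θ) := by
  have hA1 := hs.A1
  have hκ0 := hs.κ0
  have hc0 := hs.c0
  have hB0 := hs.B0
  set k : ℝ := (Fintype.card ι : ℝ) with hk
  have hk0 : 0 ≤ k := Nat.cast_nonneg _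
  obtain ⟨E₁, hE₁⟩ : ∃ E₁ : ℝ, E₁ = 2 * (A + 5 * 1 + A * s.B) := ⟨_, rfl⟩
  obtain ⟨E₂, hE₂⟩ : ∃ E₂ : ℝ, E₂ = 2 * (A + 5 * (M : ℝ) + A * s.B) := ⟨_, rfl⟩
  obtain ⟨E₃, hE₃⟩ : ∃ E₃ : ℝ, E₃ = 2 * (A + 5 * c + A * s.B) := ⟨_, rfl⟩
  obtain ⟨W, hW⟩ : ∃ W : ℝ, W = 4 * (k * Real.log A + ∑ i, (n i : ℝ)) := ⟨_, rfl⟩
  have hE₁0 : 0 ≤ E₁ := by rw [hE₁]; positivity
  have hE₃0 : 0 ≤ E₃ := by rw [hE₃]; positivity
  refine ⟨Real.exp (k * E₁ + E₂ + κ * E₃ + A * 2 + (A * k + κ) * W), Real.exp_pos _, ?_⟩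
  intro θ hθ0 hθκ S z Y1 Y2 hSne hY1 hYY hz hfrac
  set D := PP s.B Y2 \ PP s.B Y1 with hD
  have hDprop : ∀ l ∈ D, l.Prime ∧ ¬ l ∣ s.B ∧ Y1 < (l : ℝ) ^ 4 ∧ (l : ℝ) ^ 4 ≤ Y2 := by
    intro l hl
    rw [hD, mem_sdiff, mem_PP, mem_PP] at hl
    obtain ⟨⟨h1, h2, h3⟩, h4⟩ := hl
    refine ⟨h1, h2, ?_, h3⟩
    by_contra hcon
    push Not at hcon
    exact h4 ⟨h1, h2, hcon⟩
  set Db := D.filter (fun l => l ∣ ∏ i ∈ univ \ S, s.Nm i (z i)) with hDb
  have hDbc : (Db.card : ℝ) ≤ W := by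
    rw [hW, hk]
    apply few_bad hs S z hY1 hz Db
    intro l hl
    rw [hDb, mem_filter] at hl
    exact ⟨(hDprop l hl.1).1, (hDprop l hl.1).2.2.1, hl.2⟩
  have hScard : (S.card : ℝ) ≤ k := by
    rw [hk]
    exact_mod_cast card_le_univ S
  -- the densities
  have hex : ∀ l : ℕ, l.Prime → ex s S θ l ≤ A * k + κ := by
    intro l hl
    unfold ex
    have h1 : ∑ i ∈ S, (s.N1 i l : ℝ) ≤ A * k := by
      have h2 : ∑ i ∈ S, (s.N1 i l : ℝ) ≤ ∑ i ∈ S, A := sum_le_sum fun i _ => hs.nle i l hl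
      rw [sum_const, nsmul_eq_mul] at h2
      have h3 : (S.card : ℝ) * A ≤ k * A := mul_le_mul_of_nonneg_right hScard (by linarith)
      linarith
    have h4 : (0 : ℝ) ≤ s.N0 l := Nat.cast_nonneg _
    split_ifs <;> linarith
  have hterm : ∀ l ∈ D, frac n s.Om S l z ≤
      Real.exp (-(ex s S θ l / l) + A / (l : ℝ) ^ 2 + if l ∈ Db then A * k + κ else 0) := by
    intro l hl
    obtain ⟨h1, h2, h3, -⟩ := hDprop l hl
    have hl1 : (1 : ℝ) ≤ l := by exact_mod_cast h1.one_lt.le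
    have hAl : 0 ≤ A / (l : ℝ) ^ 2 := by positivity
    by_cases hb : l ∈ Db
    · rw [if_pos hb]
      refine (frac_le_one _ _ h1 _).trans (Real.one_le_exp ?_)
      have h4 : ex s S θ l / l ≤ A * k + κ := by
        rw [div_le_iff₀ (by linarith)]
        have h5 := hex l h1
        have h6 : (A * k + κ) * 1 ≤ (A * k + κ) * l := mul_le_mul_of_nonneg_left hl1 (by positivity)
        linarith
      linarith
    · rw [if_neg hb, add_zero]
      have h4 : ∀ i, i ∉ S → rd n l z i ∈ s.U l i := by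
        intro i hi
        by_contra hcon
        have h5 := hs.nm l h1 h2 i (z i) hcon
        apply hb
        rw [hDb, mem_filter]
        exact ⟨hl, h5.trans (dvd_prod_of_mem (fun i => s.Nm i (z i)) (mem_sdiff.2 ⟨mem_univ i, hi⟩))⟩
      refine (hfrac l h1 h2 h4).trans ?_
      have h5 := Real.add_one_le_exp (-(ex s S θ l / l) + A / (l : ℝ) ^ 2)
      linarith
  have hprod : ∏ l ∈ D, frac n s.Om S l z ≤
      Real.exp (∑ l ∈ D, (-(ex s S θ l / l) + A / (l : ℝ) ^ 2 + if l ∈ Db then A * k + κ else 0)) := by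
    rw [Real.exp_sum]
    exact prod_le_prod (fun l _ => frac_nonneg _ _ _ _) hterm
  refine hprod.trans ?_
  -- the sums
  have hsq : ∑ l ∈ D, A / (l : ℝ) ^ 2 ≤ A * 2 := by
    have h1 : ∑ l ∈ D, A / (l : ℝ) ^ 2 = A * ∑ l ∈ D, ((l : ℝ) ^ 2)⁻¹ := by
      rw [mul_sum]
      apply sum_congr rfl
      intro l _
      rw [div_eq_mul_inv]
    rw [h1]
    apply mul_le_mul_of_nonneg_left _ (by linarith)
    have h2 := sum_Ioo_inv_sq_le (α := ℝ) 0 (⌊Y2⌋₊ + 1)
    have h3 : ∑ l ∈ D, ((l : ℝ) ^ 2)⁻¹ ≤ ∑ l ∈ Ioo 0 (⌊Y2⌋₊ + 1), ((l : ℝ) ^ 2)⁻¹ := by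
      apply sum_le_sum_of_subset_of_nonneg
      · intro l hl
        obtain ⟨h4, -, -, h5⟩ := hDprop l hl
        have h6 := mem_pr.1 (mem_pr4 h5 h4)
        rw [mem_Ioo]
        omega
      · intro l _ _
        positivity
    refine h3.trans (h2.trans (le_of_eq ?_))
    norm_num
  have hbad : ∑ l ∈ D, (if l ∈ Db then A * k + κ else 0) ≤ (A * k + κ) * W := by
    rw [← sum_filter, sum_const, nsmul_eq_mul]
    have h1 : (D.filter (fun l => l ∈ Db)).card ≤ Db.card := card_le_card (fun l hl => (mem_filter.1 hl).2)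
    have h2 : ((D.filter (fun l => l ∈ Db)).card : ℝ) ≤ W := by
      refine le_trans ?_ hDbc
      exact_mod_cast h1
    calc _ ≤ W * (A * k + κ) := mul_le_mul_of_nonneg_right h2 (by positivity)
      _ = _ := mul_comm _ _
  set Λ := Real.log (vv Y2) - Real.log (vv Y1) with hΛ
  have hv1 := vv_pos hY1
  have hv2 := vv_pos (hY1.trans hYY)
  have hN : ∀ i, Λ - E₁ ≤ ∑ l ∈ D, (s.N1 i l : ℝ) / l := by
    intro i
    have h1 := grow2 (f := fun l => (s.N1 i l : ℝ)) (c := 1) (A := A) zero_le_one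
      (fun l _ => Nat.cast_nonneg _) (fun l hl => hs.nle i l hl)
      (fun Y hY => by rw [one_mul]; exact hs.mer i Y hY) hB0 hY1 hYY
    rw [← hE₁, one_mul] at h1
    have := (abs_le.1 h1).1
    linarith
  have h1s : ∑ l ∈ D, (s.N0 l : ℝ) / l ≤ M * Λ + E₂ := by
    have h1 := grow2 (f := fun l => (s.N0 l : ℝ)) (c := (M : ℝ)) (A := A) (Nat.cast_nonneg _)
      (fun l _ => Nat.cast_nonneg _) (fun l hl => hs.nle0 l hl)
      (fun Y hY => hs.mer0 Y hY) hB0 hY1 hYY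
    rw [← hE₂] at h1
    have := (abs_le.1 h1).2
    linarith
  have hsp : c * Λ - E₃ ≤ ∑ l ∈ D, (if l ∈ s.sp then (1 : ℝ) else 0) / l := by
    have h1 := grow2 (f := fun l => if l ∈ s.sp then (1 : ℝ) else 0) (c := c) (A := A) hc0.le
      (fun l _ => by split_ifs <;> norm_num) (fun l _ => by split_ifs <;> linarith)
      (fun Y hY => by
        have h2 := hs.mes Y hY
        rw [sum_filter] at h2
        have h3 : ∑ l ∈ pr Y, (if l ∈ s.sp then (1 : ℝ) else 0) / l =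
            ∑ l ∈ pr Y, if l ∈ s.sp then (1 : ℝ) / l else 0 := by
          apply sum_congr rfl
          intro l _
          split_ifs
          · rfl
          · exact zero_div _
        rw [h3]
        exact h2) hB0 hY1 hYY
    rw [← hE₃] at h1
    have := (abs_le.1 h1).1
    linarith
  have hexs : ∑ l ∈ D, ex s S θ l / l = ∑ i ∈ S, ∑ l ∈ D, (s.N1 i l : ℝ) / l - ∑ l ∈ D, (s.N0 l : ℝ) / l +
      θ * ∑ l ∈ D, (if l ∈ s.sp then (1 : ℝ) else 0) / l := by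
    rw [sum_comm, mul_sum, ← sum_sub_distrib, ← sum_add_distrib]
    apply sum_congr rfl
    intro l _
    unfold ex
    rw [← sum_div]
    split_ifs <;> ring
  have hS1 : (S.card : ℝ) * (Λ - E₁) ≤ ∑ i ∈ S, ∑ l ∈ D, (s.N1 i l : ℝ) / l := by
    rw [← nsmul_eq_mul]
    exact card_nsmul_le_sum _ _ _ fun i _ => hN i
  have hS2 : θ * (c * Λ - E₃) ≤ θ * ∑ l ∈ D, (if l ∈ s.sp then (1 : ℝ) else 0) / l :=
    mul_le_mul_of_nonneg_left hsp hθ0
  have hS3 : (S.card : ℝ) * E₁ ≤ k * E₁ := mul_le_mul_of_nonneg_right hScard hE₁0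
  have hS4 : θ * E₃ ≤ κ * E₃ := mul_le_mul_of_nonneg_right hθκ hE₃0
  have hcard1 : ((S.card - M : ℕ) : ℝ) = S.card - M := Nat.cast_sub hSne
  have hq : vv Y1 / vv Y2 = Real.exp (-Λ) := by
    rw [hΛ, neg_sub, Real.exp_sub, Real.exp_log (by linarith), Real.exp_log (by linarith)]
  rw [hq, ← Real.exp_nat_mul, hcard1, ← Real.exp_mul, ← Real.exp_add, ← Real.exp_add]
  apply Real.exp_le_exp.2
  rw [sum_add_distrib, sum_add_distrib, sum_neg_distrib]
  nlinarith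

end

theorem rb : S_RB := by
  intro M ι _ _ n s A c κ hs
  obtain ⟨C, hC, h⟩ := rb_aux M s A c κ hs
  refine ⟨C, hC, fun S z Y1 Y2 hSM hY1 hYY hz => ?_⟩
  have hS : S.Nonempty := card_pos.1 (lt_of_lt_of_le hs.M1 hSM)
  refine ⟨?_, fun hSu hbad => ?_⟩
  · have h1 := h 0 le_rfl hs.κ0.le S z Y1 Y2 hSM hY1 hYY hz (fun l hl hlB hu => by
      have h2 := hs.dens l hl hlB S hS z hu
      have h3 : ex s S 0 l = (∑ i ∈ S, (s.N1 i l : ℝ)) - s.N0 l := by
        unfold ex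
        rw [ite_self, add_zero]
      rw [h3]
      exact h2)
    rw [mul_zero, Real.rpow_zero, mul_one] at h1
    exact h1
  · refine h κ hs.κ0.le le_rfl S z Y1 Y2 hSM hY1 hYY hz (fun l hl hlB hu => ?_)
    unfold ex
    split_ifs with hsp
    · exact hs.good l hl hlB hsp S hS hSu hbad z hu
    · rw [add_zero]
      exact hs.dens l hl hlB S hS z hu

end Pool.Agent.Q79.ESB
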