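import Pool.Agent.Q161.ESB.Stm1
import Pool.Agent.Q79.ESB.RB

/-!
# Job RBX of project ESB (helper161), adapted from helper182's and helper195's proofs: the densities for bad `S` and values
which are not exceptional
-/

set_option autoImplicit false

namespace Pool.Agent.Q79.ESB

open Finset
open Pool.Agent.Q51.EL (pr)
open Pool.Agent.Q161.ESB
open Pool.Agent.Q121.ESN (mem_pr mem_pr4 mem_PP vv_pos PP_mono grow2 frac_nonneg frac_le_one)

variable {ι : Type} [Fintype ι] [DecidableEq ι] {n : ι → ℕ}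

open Classical in
/-- the product of the densities, with a gain for the primes of a set `G` -/
theorem rbg (M : ℕ) (s : Sy n) (A c κ : ℝ) (hs : Ok M s A c κ) : ∃ C W : ℝ, 0 < C ∧ 0 ≤ W ∧
    ∀ (S : Finset ι) (z : Vc n) (Y1 Y2 : ℝ), M ≤ S.card → S ≠ univ → s.Bad S → 1 ≤ Y1 → Y1 ≤ Y2 →
    (∀ i, i ∉ S → (∀ j, |(z i j : ℝ)| ≤ Y1) ∧ s.Nm i (z i) ≠ 0) →
    (((PP s.B Y2 \ PP s.B Y1).filter (fun l => l ∣ ∏ i ∈ univ \ S, s.Nm i (z i))).card : ℝ) ≤ W ∧
    ∀ G : Finset ℕ, (∀ l ∈ G, l ∈ s.sp ∧ s.Inc S l z) → G ⊆ PP s.B Y2 \ PP s.B Y1 →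
    ∏ l ∈ PP s.B Y2 \ PP s.B Y1, frac n s.Om S l z ≤
      C * (vv Y1 / vv Y2) ^ (S.card - M) * Real.exp (-(κ * ∑ l ∈ G, (1 : ℝ) / l)) := by
  have hA1 := hs.A1
  have hκ0 := hs.κ0
  have hc0 := hs.c0
  have hB0 := hs.B0
  set k : ℝ := (Fintype.card ι : ℝ) with hk
  have hk0 : 0 ≤ k := Nat.cast_nonneg _
  obtain ⟨E₁, hE₁⟩ : ∃ E₁ : ℝ, E₁ = 2 * (A + 5 * 1 + A * s.B) := ⟨_, rfl⟩
  obtain ⟨E₂, hE₂⟩ : ∃ E₂ : ℝ, E₂ = 2 * (A + 5 * (M : ℝ) + A * s.B) := ⟨_, rfl⟩
  obtain ⟨W, hW⟩ : ∃ W : ℝ, W = 4 * (k * Real.log A + ∑ i, (n i : ℝ)) := ⟨_, rfl⟩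
  have hE₁0 : 0 ≤ E₁ := by rw [hE₁]; positivity
  have hW0 : 0 ≤ W := by
    rw [hW]
    have := Real.log_nonneg hA1
    positivity
  refine ⟨Real.exp (k * E₁ + E₂ + A * 2 + (A * k + κ) * W), W, Real.exp_pos _, hW0, ?_⟩
  intro S z Y1 Y2 hSM hSu hbadS hY1 hYY hz
  have hSne : S.Nonempty := card_pos.1 (lt_of_lt_of_le hs.M1 hSM)
  set D := PP s.B Y2 \ PP s.B Y1 with hD
  have hDprop : ∀ l ∈ D, l.Prime ∧ ¬ l ∣ s.B ∧ Y1 < (l : ℝ) ^ 4 ∧ (l : ℝ) ^ 4 ≤ Y2 := by
    intro l hl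
    rw [hD, mem_sdiff, mem_PP, mem_PP] at hl
    obtain ⟨⟨h1, h2, h3⟩, h4⟩ := hl
    refine ⟨h1, h2, ?_, h3⟩
    by_contra hcon
    push Not at hcon
    exact h4 ⟨h1, h2, hcon⟩
  set Db := D.filter (fun l => l ∣ ∏ i ∈ univ \ S, s.Nm i (z i)) with hDb
  have hDbc : (Db.card : ℝ) ≤ W := by
    rw [hW, hk]
    apply few_bad hs S z hY1 hz Db
    intro l hl
    rw [hDb, mem_filter] at hl
    exact ⟨(hDprop l hl.1).1, (hDprop l hl.1).2.2.1, hl.2⟩
  refine ⟨hDbc, ?_⟩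
  intro G hG hGD
  have hScard : (S.card : ℝ) ≤ k := by
    rw [hk]
    exact_mod_cast card_le_univ S
  obtain ⟨e, he⟩ : ∃ e : ℕ → ℝ, ∀ l, e l = (∑ i ∈ S, (s.N1 i l : ℝ)) - s.N0 l + if l ∈ G then κ else 0 :=
    ⟨_, fun _ => rfl⟩
  -- the densities
  have hex : ∀ l : ℕ, l.Prime → e l ≤ A * k + κ := by
    intro l hl
    rw [he]
    have h1 : ∑ i ∈ S, (s.N1 i l : ℝ) ≤ A * k := by
      have h2 : ∑ i ∈ S, (s.N1 i l : ℝ) ≤ ∑ i ∈ S, A := sum_le_sum fun i _ => hs.nle i l hl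
      rw [sum_const, nsmul_eq_mul] at h2
      have h3 : (S.card : ℝ) * A ≤ k * A := mul_le_mul_of_nonneg_right hScard (by linarith)
      linarith
    have h0 : (0 : ℝ) ≤ s.N0 l := Nat.cast_nonneg _
    split_ifs <;> linarith
  have hterm : ∀ l ∈ D, frac n s.Om S l z ≤
      Real.exp (-(e l / l) + A / (l : ℝ) ^ 2 + if l ∈ Db then A * k + κ else 0) := by
    intro l hl
    obtain ⟨h1, h2, h3, -⟩ := hDprop l hl
    have hl1 : (1 : ℝ) ≤ l := by exact_mod_cast h1.one_lt.le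
    have hAl : 0 ≤ A / (l : ℝ) ^ 2 := by positivity
    by_cases hb : l ∈ Db
    · rw [if_pos hb]
      refine (frac_le_one _ _ h1 _).trans (Real.one_le_exp ?_)
      have h4 : e l / l ≤ A * k + κ := by
        rw [div_le_iff₀ (by linarith)]
        have h5 := hex l h1
        have h6 : (A * k + κ) * 1 ≤ (A * k + κ) * l := mul_le_mul_of_nonneg_left hl1 (by positivity)
        linarith
      linarith
    · rw [if_neg hb, add_zero]
      have h4 : ∀ i, i ∉ S → rd n l z i ∈ s.U l i := by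
        intro i hi
        by_contra hcon
        have h5 := hs.nm l h1 h2 i (z i) hcon
        apply hb
        rw [hDb, mem_filter]
        exact ⟨hl, h5.trans (dvd_prod_of_mem (fun i => s.Nm i (z i)) (mem_sdiff.2 ⟨mem_univ i, hi⟩))⟩
      have h6 : frac n s.Om S l z ≤ 1 - e l / l + A / (l : ℝ) ^ 2 := by
        rw [he]
        split_ifs with hlG
        · exact hs.bad l h1 h2 (hG l hlG).1 S hSne hSu hbadS z h4 (hG l hlG).2
        · rw [add_zero]
          exact hs.dens l h1 h2 S hSne z h4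
      refine h6.trans ?_
      have h5 := Real.add_one_le_exp (-(e l / l) + A / (l : ℝ) ^ 2)
      linarith
  have hprod : ∏ l ∈ D, frac n s.Om S l z ≤
      Real.exp (∑ l ∈ D, (-(e l / l) + A / (l : ℝ) ^ 2 + if l ∈ Db then A * k + κ else 0)) := by
    rw [Real.exp_sum]
    exact prod_le_prod (fun l _ => frac_nonneg _ _ _ _) hterm
  refine hprod.trans ?_
  -- the sums
  have hsq : ∑ l ∈ D, A / (l : ℝ) ^ 2 ≤ A * 2 := by
    have h1 : ∑ l ∈ D, A / (l : ℝ) ^ 2 = A * ∑ l ∈ D, ((l : ℝ) ^ 2)⁻¹ := by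
      rw [mul_sum]
      apply sum_congr rfl
      intro l _
      rw [div_eq_mul_inv]
    rw [h1]
    apply mul_le_mul_of_nonneg_left _ (by linarith)
    have h2 := sum_Ioo_inv_sq_le (α := ℝ) 0 (⌊Y2⌋₊ + 1)
    have h3 : ∑ l ∈ D, ((l : ℝ) ^ 2)⁻¹ ≤ ∑ l ∈ Ioo 0 (⌊Y2⌋₊ + 1), ((l : ℝ) ^ 2)⁻¹ := by
      apply sum_le_sum_of_subset_of_nonneg
      · intro l hl
        obtain ⟨h4, -, -, h5⟩ := hDprop l hl
        have h6 := mem_pr.1 (mem_pr4 h5 h4)
        rw [mem_Ioo]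
        omega
      · intro l _ _
        positivity
    refine h3.trans (h2.trans (le_of_eq ?_))
    norm_num
  have hbad : ∑ l ∈ D, (if l ∈ Db then A * k + κ else 0) ≤ (A * k + κ) * W := by
    rw [← sum_filter, sum_const, nsmul_eq_mul]
    have h1 : (D.filter (fun l => l ∈ Db)).card ≤ Db.card := card_le_card (fun l hl => (mem_filter.1 hl).2)
    have h2 : ((D.filter (fun l => l ∈ Db)).card : ℝ) ≤ W := by
      refine le_trans ?_ hDbc
      exact_mod_cast h1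
    calc _ ≤ W * (A * k + κ) := mul_le_mul_of_nonneg_right h2 (by positivity)
      _ = _ := mul_comm _ _
  set Λ := Real.log (vv Y2) - Real.log (vv Y1) with hΛ
  have hv1 := vv_pos hY1
  have hv2 := vv_pos (hY1.trans hYY)
  have hN : ∀ i, Λ - E₁ ≤ ∑ l ∈ D, (s.N1 i l : ℝ) / l := by
    intro i
    have h1 := grow2 (f := fun l => (s.N1 i l : ℝ)) (c := 1) (A := A) zero_le_one
      (fun l _ => Nat.cast_nonneg _) (fun l hl => hs.nle i l hl)
      (fun Y hY => by rw [one_mul]; exact hs.mer i Y hY) hB0 hY1 hYY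
    rw [← hE₁, one_mul] at h1
    have := (abs_le.1 h1).1
    linarith
  have h1s : ∑ l ∈ D, (s.N0 l : ℝ) / l ≤ M * Λ + E₂ := by
    have h1 := grow2 (f := fun l => (s.N0 l : ℝ)) (c := (M : ℝ)) (A := A) (Nat.cast_nonneg _)
      (fun l _ => Nat.cast_nonneg _) (fun l hl => hs.nle0 l hl)
      (fun Y hY => hs.mer0 Y hY) hB0 hY1 hYY
    rw [← hE₂] at h1
    have := (abs_le.1 h1).2
    linarith
  have hexs : ∑ l ∈ D, e l / l = ∑ i ∈ S, ∑ l ∈ D, (s.N1 i l : ℝ) / l - ∑ l ∈ D, (s.N0 l : ℝ) / l +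
      κ * ∑ l ∈ G, (1 : ℝ) / l := by
    have h2 : ∑ l ∈ G, (1 : ℝ) / l = ∑ l ∈ D, if l ∈ G then (1 : ℝ) / l else 0 := by
      rw [← sum_filter]
      apply sum_congr _ (fun _ _ => rfl)
      ext l
      rw [mem_filter]
      exact ⟨fun h => ⟨hGD h, h⟩, fun h => h.2⟩
    rw [h2, sum_comm, mul_sum, ← sum_sub_distrib, ← sum_add_distrib]
    apply sum_congr rfl
    intro l _
    rw [he, ← sum_div]
    split_ifs <;> ring
  have hS1 : (S.card : ℝ) * (Λ - E₁) ≤ ∑ i ∈ S, ∑ l ∈ D, (s.N1 i l : ℝ) / l := by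
    rw [← nsmul_eq_mul]
    exact card_nsmul_le_sum _ _ _ fun i _ => hN i
  have hS3 : (S.card : ℝ) * E₁ ≤ k * E₁ := mul_le_mul_of_nonneg_right hScard hE₁0
  have hcard1 : ((S.card - M : ℕ) : ℝ) = S.card - M := Nat.cast_sub hSM
  have hq : vv Y1 / vv Y2 = Real.exp (-Λ) := by
    rw [hΛ, neg_sub, Real.exp_sub, Real.exp_log (by linarith), Real.exp_log (by linarith)]
  rw [hq, ← Real.exp_nat_mul, hcard1, ← Real.exp_add, ← Real.exp_add]
  apply Real.exp_le_exp.2
  rw [sum_add_distrib, sum_add_distrib, sum_neg_distrib]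
  nlinarith

theorem rbx : S_RB → S_RBX := by
  classical
  intro _ M ι _ _ n s A c κ hs b C0 hb
  obtain ⟨C, W, hC, hW, h⟩ := rbg M s A c κ hs
  have hκ := hs.κ0
  obtain ⟨b', hb'⟩ : ∃ b' : ℝ, b' = min 1 (min (κ * b) (κ * b ^ 2)) := ⟨_, rfl⟩
  have hb'0 : 0 < b' := by
    rw [hb']
    exact lt_min one_pos (lt_min (by positivity) (by positivity))
  have hb'1 : b' ≤ 1 := by
    rw [hb']
    exact min_le_left _ _
  have hb'2 : b' ≤ κ * b := by
    rw [hb']
    exact (min_le_right _ _).trans (min_le_left _ _)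
  have hb'3 : b' ≤ κ * b ^ 2 := by
    rw [hb']
    exact (min_le_right _ _).trans (min_le_right _ _)
  refine ⟨b', C * 2 + C * Real.exp (κ * (|C0| + W)) * (4 ^ (κ * b) + 2 ^ (κ * b ^ 2)), hb'0, hb'1,
    by positivity, ?_⟩
  intro S x Y1 Y2 hSne hSu hbadS hY16 hYY hx hNx
  have hY1 : 1 ≤ Y1 := by linarith
  obtain ⟨hDb, hG⟩ := h S x Y1 Y2 hSne hSu hbadS hY1 hYY hx
  set D := PP s.B Y2 \ PP s.B Y1 with hD
  have hDmem : ∀ l, l ∈ D ↔ l.Prime ∧ ¬ l ∣ s.B ∧ Y1 < (l : ℝ) ^ 4 ∧ (l : ℝ) ^ 4 ≤ Y2 := by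
    intro l
    rw [hD, mem_sdiff, mem_PP, mem_PP]
    constructor
    · rintro ⟨⟨h1, h2, h3⟩, h4⟩
      refine ⟨h1, h2, ?_, h3⟩
      by_contra hcon
      push Not at hcon
      exact h4 ⟨h1, h2, hcon⟩
    · rintro ⟨h1, h2, h3, h4⟩
      exact ⟨⟨h1, h2, h4⟩, fun h5 => absurd h5.2.2 (not_le.2 h3)⟩
  have hv1 := vv_pos hY1
  have hv2 := vv_pos (hY1.trans hYY)
  have hL1 : 1 ≤ Real.log Y1 := by
    rw [Real.le_log_iff_exp_le (by linarith)]
    exact Real.exp_one_lt_d9.le.trans (by linarith)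
  have hL12 : Real.log Y1 ≤ Real.log Y2 := Real.log_le_log (by linarith) hYY
  have hL2 : 1 ≤ Real.log Y2 := hL1.trans hL12
  have hq0 : 0 < vv Y1 / vv Y2 := by positivity
  have hq1 : vv Y1 / vv Y2 ≤ 1 := by
    rw [div_le_one (by linarith)]
    unfold vv
    linarith
  have hp0 : 0 < (vv Y1 / vv Y2) ^ (S.card - M) := pow_pos hq0 _
  have hr0 : 0 < (vv Y1 / vv Y2) ^ b' := Real.rpow_pos_of_pos hq0 _
  have hr1 : 0 < vv Y1 ^ (-b') := Real.rpow_pos_of_pos (by linarith) _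
  set K : ℝ := C * Real.exp (κ * (|C0| + W)) with hK
  have hK0 : 0 < K := by positivity
  have h40 : (0 : ℝ) < 4 ^ (κ * b) := by positivity
  have h20 : (0 : ℝ) < 2 ^ (κ * b ^ 2) := by positivity
  -- a sufficient bound
  have fin : ∀ u v : ℝ, 0 ≤ u → 0 ≤ v → u * (vv Y1 / vv Y2) ^ b' + v * vv Y1 ^ (-b') ≤
      (C * 2 + K * (4 ^ (κ * b) + 2 ^ (κ * b ^ 2))) * ((vv Y1 / vv Y2) ^ b' + vv Y1 ^ (-b')) →
      ∀ P : ℝ, P ≤ (vv Y1 / vv Y2) ^ (S.card - M) * (u * (vv Y1 / vv Y2) ^ b' + v * vv Y1 ^ (-b')) →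
      P ≤ (C * 2 + K * (4 ^ (κ * b) + 2 ^ (κ * b ^ 2))) * (vv Y1 / vv Y2) ^ (S.card - M) *
        ((vv Y1 / vv Y2) ^ b' + vv Y1 ^ (-b')) := by
    intro u v _ _ h1 P h2
    refine h2.trans ((mul_le_mul_of_nonneg_left h1 hp0.le).trans (le_of_eq ?_))
    ring
  rcases lt_or_ge Y2 (Y1 ^ 2) with hcase | hcase
  · -- short range
    have h1 := hG ∅ (by simp) (by simp)
    rw [sum_empty, mul_zero, neg_zero, Real.exp_zero, mul_one] at h1
    have h2 : 1 / 2 ≤ vv Y1 / vv Y2 := by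
      rw [div_le_div_iff₀ (by norm_num) (by linarith)]
      have h3 : Real.log Y2 ≤ Real.log (Y1 ^ 2) := Real.log_le_log (by linarith) hcase.le
      rw [Real.log_pow] at h3
      push_cast at h3
      unfold vv
      linarith
    have h3 : 1 / 2 ≤ (vv Y1 / vv Y2) ^ b' := by
      have h4 : (vv Y1 / vv Y2) ^ (1 : ℝ) ≤ (vv Y1 / vv Y2) ^ b' :=
        Real.rpow_le_rpow_of_exponent_ge hq0 hq1 hb'1
      rw [Real.rpow_one] at h4
      linarith
    refine fin (C * 2) 0 (by positivity) le_rfl ?_ _ ?_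
    · rw [zero_mul, add_zero]
      apply mul_le_mul _ _ hr0.le (by positivity)
      · have : 0 < K * (4 ^ (κ * b) + 2 ^ (κ * b ^ 2)) := by positivity
        linarith
      · linarith
    · rw [zero_mul, add_zero]
      refine h1.trans ?_
      rw [mul_comm C]
      apply mul_le_mul_of_nonneg_left _ hp0.le
      nlinarith
  · -- the long range
    have hfour : (Y2 ^ ((1 : ℝ) / 4)) ^ 4 = Y2 := by
      rw [← Real.rpow_natCast, ← Real.rpow_mul (by linarith)]
      norm_num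
    obtain ⟨Z, hZ⟩ : ∃ Z : ℝ, Z = min (Y2 ^ ((1 : ℝ) / 4)) (Real.exp (Real.log Y1 ^ (1 + b))) := ⟨_, rfl⟩
    have hZ1 : Z ≤ Y2 ^ ((1 : ℝ) / 4) := by
      rw [hZ]
      exact min_le_left _ _
    have hZ2 : Z ≤ Real.exp (Real.log Y1 ^ (1 + b)) := by
      rw [hZ]
      exact min_le_right _ _
    have hsq : Real.sqrt Y1 ≤ Z := by
      rw [hZ]
      apply le_min
      · rw [Real.sqrt_eq_rpow]
        have h1 : (Y1 ^ (2 : ℕ)) ^ ((1 : ℝ) / 4) ≤ Y2 ^ ((1 : ℝ) / 4) :=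
          Real.rpow_le_rpow (by positivity) hcase (by norm_num)
        refine le_trans (le_of_eq ?_) h1
        rw [← Real.rpow_natCast, ← Real.rpow_mul (by linarith)]
        norm_num
      · have h1 : Real.sqrt Y1 ≤ Y1 := by
          rw [Real.sqrt_le_left (by linarith)]
          nlinarith
        refine h1.trans ?_
        rw [← Real.log_le_iff_le_exp (by linarith)]
        have h2 : Real.log Y1 ^ (1 : ℝ) ≤ Real.log Y1 ^ (1 + b) :=
          Real.rpow_le_rpow_of_exponent_le hL1 (by linarith)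
        rwa [Real.rpow_one] at h2
    have hsq1 : 1 ≤ Real.sqrt Y1 := by
      rw [Real.le_sqrt (by norm_num) (by linarith)]
      linarith
    have hZ0 : 0 < Z := by linarith
    have hlZ : Real.log Z ≤ Real.log Y1 ^ (1 + b) := by
      rw [Real.log_le_iff_le_exp hZ0]
      exact hZ2
    have h1 := hNx Z hsq hlZ
    -- the set of primes
    obtain ⟨G, hGdef⟩ : ∃ G : Finset ℕ, G = D.filter (fun l => l ∈ s.sp ∧ s.Inc S l x) := ⟨_, rfl⟩
    have h2 := hG G (by
      intro l hl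
      rw [hGdef, mem_filter] at hl
      exact hl.2) (by
      rw [hGdef]
      exact filter_subset _ _)
    have h3 : ∑ l ∈ (pr Z).filter (fun l : ℕ => Real.sqrt Y1 < (l : ℝ) ∧ l ∈ s.sp ∧ ¬ l ∣ s.B ∧
        (s.Inc S l x ∨ ∃ i, i ∉ S ∧ rd n l x i ∉ s.U l i)), (1 : ℝ) / l ≤
        ∑ l ∈ G, (1 : ℝ) / l + W := by
      have h4 : (pr Z).filter (fun l : ℕ => Real.sqrt Y1 < (l : ℝ) ∧ l ∈ s.sp ∧ ¬ l ∣ s.B ∧
          (s.Inc S l x ∨ ∃ i, i ∉ S ∧ rd n l x i ∉ s.U l i)) ⊆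
          G ∪ D.filter (fun l => l ∣ ∏ i ∈ univ \ S, s.Nm i (x i)) := by
        intro l hl
        rw [mem_filter] at hl
        obtain ⟨hlZ', h5, h6, h7, h8⟩ := hl
        have hlp := (mem_pr.1 hlZ').2
        have hle : (l : ℝ) ≤ Z := (Nat.le_floor_iff hZ0.le).1 (mem_pr.1 hlZ').1.2
        have hlD : l ∈ D := by
          rw [hDmem]
          refine ⟨hlp, h7, ?_, ?_⟩
          · have h9 : Real.sqrt Y1 ^ 4 < (l : ℝ) ^ 4 :=
              pow_lt_pow_left₀ h5 (Real.sqrt_nonneg _) (by norm_num)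
            have h10 : Real.sqrt Y1 ^ 4 = Y1 ^ 2 := by
              have : Real.sqrt Y1 ^ 2 = Y1 := Real.sq_sqrt (by linarith)
              calc Real.sqrt Y1 ^ 4 = (Real.sqrt Y1 ^ 2) ^ 2 := by ring
                _ = _ := by rw [this]
            rw [h10] at h9
            nlinarith
          · have h9 : (l : ℝ) ^ 4 ≤ (Y2 ^ ((1 : ℝ) / 4)) ^ 4 :=
              pow_le_pow_left₀ (Nat.cast_nonneg _) (hle.trans hZ1) 4
            rwa [hfour] at h9
        rw [mem_union]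
        rcases h8 with h8 | ⟨i, hi, h8⟩
        · left
          rw [hGdef, mem_filter]
          exact ⟨hlD, h6, h8⟩
        · right
          rw [mem_filter]
          refine ⟨hlD, ?_⟩
          have h9 := hs.nm l hlp h7 i (x i) h8
          exact h9.trans (dvd_prod_of_mem (fun i => s.Nm i (x i)) (mem_sdiff.2 ⟨mem_univ i, hi⟩))
      have h5 : ∀ l : ℕ, (0 : ℝ) ≤ 1 / l := fun l => by positivity
      refine (sum_le_sum_of_subset_of_nonneg h4 (fun l _ _ => h5 l)).trans ?_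
      have h6 : ∑ l ∈ G ∪ D.filter (fun l => l ∣ ∏ i ∈ univ \ S, s.Nm i (x i)), (1 : ℝ) / l ≤
          ∑ l ∈ G, (1 : ℝ) / l +
            ∑ l ∈ D.filter (fun l => l ∣ ∏ i ∈ univ \ S, s.Nm i (x i)), (1 : ℝ) / l := by
        rw [← sum_union_inter]
        have : 0 ≤ ∑ l ∈ G ∩ D.filter (fun l => l ∣ ∏ i ∈ univ \ S, s.Nm i (x i)), (1 : ℝ) / l :=
          sum_nonneg fun l _ => h5 l
        linarith
      refine h6.trans ?_
      have h7 : ∑ l ∈ D.filter (fun l => l ∣ ∏ i ∈ univ \ S, s.Nm i (x i)), (1 : ℝ) / l ≤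
          ∑ l ∈ D.filter (fun l => l ∣ ∏ i ∈ univ \ S, s.Nm i (x i)), (1 : ℝ) := by
        apply sum_le_sum
        intro l hl
        have hl1 : (1 : ℝ) ≤ l := by
          exact_mod_cast ((hDmem l).1 (mem_filter.1 hl).1).1.one_lt.le
        rw [div_le_one (by linarith)]
        exact hl1
      rw [sum_const, nsmul_eq_mul, mul_one] at h7
      linarith
    -- the exponent
    have h4 : κ * (b * Real.log (Real.log Z / Real.log Y1)) - κ * (|C0| + W) ≤
        κ * ∑ l ∈ G, (1 : ℝ) / l := by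
      rw [← mul_sub]
      apply mul_le_mul_of_nonneg_left _ hκ.le
      have := le_abs_self C0
      linarith
    have hLZ : 0 < Real.log Z := by
      apply Real.log_pos
      have h5 : (4 : ℝ) ≤ Real.sqrt Y1 := by
        rw [Real.le_sqrt (by norm_num) (by linarith)]
        linarith
      linarith
    have hR0 : 0 < Real.log Z / Real.log Y1 := by positivity
    have h5 : Real.exp (-(κ * ∑ l ∈ G, (1 : ℝ) / l)) ≤
        Real.exp (κ * (|C0| + W)) * (Real.log Z / Real.log Y1) ^ (-(κ * b)) := by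
      rw [Real.rpow_def_of_pos hR0, ← Real.exp_add]
      apply Real.exp_le_exp.2
      nlinarith
    have h6 : ∏ l ∈ D, frac n s.Om S l x ≤ (vv Y1 / vv Y2) ^ (S.card - M) *
        (K * (Real.log Z / Real.log Y1) ^ (-(κ * b))) := by
      refine h2.trans ?_
      have h7 : C * (vv Y1 / vv Y2) ^ (S.card - M) * Real.exp (-(κ * ∑ l ∈ G, (1 : ℝ) / l)) ≤
          C * (vv Y1 / vv Y2) ^ (S.card - M) *
            (Real.exp (κ * (|C0| + W)) * (Real.log Z / Real.log Y1) ^ (-(κ * b))) :=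
        mul_le_mul_of_nonneg_left h5 (by positivity)
      refine h7.trans (le_of_eq ?_)
      rw [hK]
      ring
    have hmain : (Real.log Z / Real.log Y1) ^ (-(κ * b)) ≤
        4 ^ (κ * b) * (vv Y1 / vv Y2) ^ b' + 2 ^ (κ * b ^ 2) * vv Y1 ^ (-b') := by
      rcases le_total (Y2 ^ ((1 : ℝ) / 4)) (Real.exp (Real.log Y1 ^ (1 + b))) with hm | hm
      · have hZe : Z = Y2 ^ ((1 : ℝ) / 4) := by rw [hZ, min_eq_left hm]
        have h7 : Real.log Z = Real.log Y2 / 4 := by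
          rw [hZe, Real.log_rpow (by linarith)]
          ring
        have h8 : Real.log Z / Real.log Y1 = (4 * (Real.log Y1 / Real.log Y2))⁻¹ := by
          rw [h7]
          have : Real.log Y2 ≠ 0 := by linarith
          have : Real.log Y1 ≠ 0 := by linarith
          field_simp
        have h9 : 0 < Real.log Y1 / Real.log Y2 := by positivity
        have h10 : Real.log Y1 / Real.log Y2 ≤ vv Y1 / vv Y2 := by
          rw [div_le_div_iff₀ (by linarith) (by linarith)]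
          unfold vv
          nlinarith
        have h11 : (Real.log Z / Real.log Y1) ^ (-(κ * b)) = (4 * (Real.log Y1 / Real.log Y2)) ^ (κ * b) := by
          rw [h8, Real.inv_rpow (by positivity), Real.rpow_neg (by positivity), inv_inv]
        rw [h11, Real.mul_rpow (by norm_num) h9.le]
        have h12 : (Real.log Y1 / Real.log Y2) ^ (κ * b) ≤ (vv Y1 / vv Y2) ^ b' :=
          (Real.rpow_le_rpow h9.le h10 (by positivity)).trans
            (Real.rpow_le_rpow_of_exponent_ge hq0 hq1 hb'2)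
        have h13 : 0 ≤ 2 ^ (κ * b ^ 2) * vv Y1 ^ (-b') := by positivity
        have h14 := mul_le_mul_of_nonneg_left h12 h40.le
        linarith
      · have hZe : Z = Real.exp (Real.log Y1 ^ (1 + b)) := by rw [hZ, min_eq_right hm]
        have h7 : Real.log Z / Real.log Y1 = Real.log Y1 ^ b := by
          rw [hZe, Real.log_exp, Real.rpow_add (by linarith), Real.rpow_one]
          have : Real.log Y1 ≠ 0 := by linarith
          field_simp
        have h8 : (Real.log Z / Real.log Y1) ^ (-(κ * b)) = Real.log Y1 ^ (-(κ * b ^ 2)) := by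
          rw [h7, ← Real.rpow_mul (by linarith)]
          congr 1
          ring
        have h9 : vv Y1 / 2 ≤ Real.log Y1 := by
          unfold vv
          linarith
        have h10 : Real.log Y1 ^ (-(κ * b ^ 2)) ≤ (vv Y1 / 2) ^ (-(κ * b ^ 2)) :=
          Real.rpow_le_rpow_of_nonpos (by linarith) h9 (by
            have : 0 < κ * b ^ 2 := by positivity
            linarith)
        have h11 : (vv Y1 / 2) ^ (-(κ * b ^ 2)) = 2 ^ (κ * b ^ 2) * vv Y1 ^ (-(κ * b ^ 2)) := by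
          rw [Real.div_rpow (by linarith) (by norm_num), Real.rpow_neg (by norm_num : (0 : ℝ) ≤ 2),
            div_inv_eq_mul, mul_comm]
        have h12 : vv Y1 ^ (-(κ * b ^ 2)) ≤ vv Y1 ^ (-b') :=
          Real.rpow_le_rpow_of_exponent_le hv1 (by linarith)
        have h13 : 0 ≤ 4 ^ (κ * b) * (vv Y1 / vv Y2) ^ b' := by positivity
        have h14 := mul_le_mul_of_nonneg_left h12 h20.le
        rw [h8]
        linarith
    refine fin (K * 4 ^ (κ * b)) (K * 2 ^ (κ * b ^ 2)) (by positivity) (by positivity) ?_ _ ?_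
    · have h7 : 0 < C * 2 * ((vv Y1 / vv Y2) ^ b' + vv Y1 ^ (-b')) := by positivity
      have h8 : 0 < K * 2 ^ (κ * b ^ 2) * (vv Y1 / vv Y2) ^ b' := by positivity
      have h9 : 0 < K * 4 ^ (κ * b) * vv Y1 ^ (-b') := by positivity
      nlinarith
    · refine h6.trans (mul_le_mul_of_nonneg_left ?_ hp0.le)
      have h7 := mul_le_mul_of_nonneg_left hmain hK0.le
      refine h7.trans (le_of_eq ?_)
      ring

end Pool.Agent.Q79.ESB
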